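import Pool.Agent.Helper10.SP.GoalsI

/-! # BOCF: there is no commutative family that kills the period map -/

open Complex Metric Set Filter Topology MeasureTheory
open scoped ContDiff ComplexConjugate ComplexOrder Manifold

namespace Pool.Agent.Helper52.SP

open Pool.Agent.Helper95.Lin Pool.Agent.Helper16.Abund Pool.Agent.Helper92.Orb
open Pool.Agent.Helper10.SP

universe u v

/-- The Levi matrix is positive definite where the Levi form is positive. -/
theorem lm_posDef (hLMF : S_LMF) {n : ℕ} (W : Set (Cn n)) (hW : IsOpen W) (Φ : Cn n → ℝ)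
    (hΦ : ContDiffOn ℝ ∞ Φ W) (x : Cn n) (hx : x ∈ W) (hpos : ∀ e, e ≠ 0 → 0 < lev Φ x e) :
    (LM Φ x).PosDef := by
  obtain ⟨-, h2, h3, -⟩ := hLMF W hW Φ hΦ
  refine Matrix.PosDef.of_dotProduct_mulVec_pos (h2 x hx) ?_
  intro y hy
  have hy' : star y ≠ 0 := by
    intro h
    exact hy (star_eq_zero.1 h)
  have h4 := hpos (star y) hy'
  have h5 : star y ⬝ᵥ (LM Φ x).mulVec y = hermi (LM Φ x) (star y) (star y) := by
    simp only [dotProduct, Matrix.mulVec, hermi, Finset.mul_sum]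
    refine Finset.sum_congr rfl fun i _ => Finset.sum_congr rfl fun j _ => ?_
    simp only [Pi.star_apply, RCLike.star_def, Complex.conj_conj]
    ring
  rw [h5, ← h3 x hx]
  exact_mod_cast h4

/-- Linearly independent rows have a nonvanishing maximal minor. -/
theorem exists_minor {b p : ℕ} (v : Fin (p + 1) → Cn b) (hv : LinearIndependent ℂ v) :
    ∃ I : Fin (p + 1) → Fin b, (Matrix.of fun k l => v k (I l)).det ≠ 0 := by
  classical
  set M : Matrix (Fin (p + 1)) (Fin b) ℂ := Matrix.of fun k j => v k j with hM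
  have hrank : M.rank = p + 1 := by
    have h1 : LinearIndependent ℂ M.row := hv
    have h2 := h1.rank_matrix
    simpa using h2
  have hspan : Module.finrank ℂ (Submodule.span ℂ (Set.range M.col)) = p + 1 :=
    (Matrix.rank_eq_finrank_span_cols M).symm.trans hrank
  obtain ⟨f, hf1, hf2, hf3⟩ := Submodule.exists_fun_fin_finrank_span_eq ℂ (Set.range M.col)
  choose I hI using hf1
  refine ⟨fun l => I (Fin.cast hspan.symm l), ?_⟩
  have h5 : LinearIndependent ℂ (fun l : Fin (p + 1) => f (Fin.cast hspan.symm l)) :=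
    hf3.comp _ (Fin.cast_injective _)
  have h6 : (Matrix.of fun k l => v k (I (Fin.cast hspan.symm l)) :
      Matrix (Fin (p + 1)) (Fin (p + 1)) ℂ).col = fun l => f (Fin.cast hspan.symm l) := by
    funext l
    rw [← hI (Fin.cast hspan.symm l)]
    rfl
  rw [← h6] at h5
  rw [Matrix.linearIndependent_cols_iff_isUnit, Matrix.isUnit_iff_isUnit_det] at h5
  exact h5.ne_zero

/-- BOCF. -/
theorem bocf (hLMF : S_LMF) (hMU : S_MU.{u}) (hDETC : S_DETC.{u}) (hRLT : S_RLT.{u})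
    (hGIND : S_GIND) (hINTB : S_INTB.{u}) (hTENS : S_TENS) (hBID : S_BID) (hBNAT : S_BNAT) :
    S_BOCF.{u} := by
  intro b N G _ c R Rel P Φ C H hF lam hlam m V hV hk
  obtain ⟨p, rfl⟩ : ∃ p, m = p + 1 := Nat.exists_eq_succ_of_ne_zero hV.pos.ne'
  have hA := hF.fol
  have hR2 : (2 : ℝ) ≤ R := by have := hA.Rge; have := hA.Cge; linarith
  have hsub : Bd c 2 ⊆ Bd c R := iUnion_mono fun i => ball_subset_ball hR2
  have hsub3 : Bd c 2 ⊆ Bd c 3 := iUnion_mono fun i => ball_subset_ball (by norm_num)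
  have hopen : IsOpen (Bd c 2) := isOpen_iUnion fun i => isOpen_ball
  have hΦ : ContDiffOn ℝ ∞ Φ (Bd c 2) := hA.smooth.mono hsub
  obtain ⟨μ, hμs, hμp, hμi, hμL⟩ := hMU c R Rel P Φ C H hF lam hlam
  obtain ⟨u, hus, hul, hud⟩ := hDETC c R Rel P Φ C H hF (p + 1) V hV
  have hlam0 : ∀ z ∈ Bd c 3, lam 0 z ≠ 0 := by
    obtain ⟨B, hB, hB2⟩ := hlam.bdd
    intro z hz h0
    have := (hB2 z hz).2
    rw [h0] at this
    simp at this
    linarith
  have hτ : DifferentiableOn ℂ (tau lam) (Bd c 2) := by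
    have h1 := (hlam.holo 1).mono hsub3
    have h0 := (hlam.holo 0).mono hsub3
    refine (h1.mul (h0.inv fun z hz => hlam0 z (hsub3 hz))).congr fun z _ => ?_
    simp only [tau, div_eq_mul_inv, Pi.mul_apply, Pi.inv_apply]
  have hVd : ∀ k, DifferentiableOn ℂ (V k) (Bd c 2) := fun k => (hV.holo k).mono hsub3
  obtain ⟨hYs, hY⟩ := hBID (Bd c 2) hopen Φ μ u (tau lam) V hΦ hμs hus hμp hτ hVd hul
    (fun k z hz => hk k z (hsub3 hz)) hμL
  have hPD : ∀ z ∈ Bd c 2, (LM Φ z).PosDef := fun z hz =>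
    lm_posDef hLMF (Bd c 2) hopen Φ hΦ z hz fun e he => hA.pos z (hsub hz) e he
  -- invariance
  have hYi : ∀ U t, PB c P U t → ∀ z ∈ U, fderiv ℂ t.g z (YB Φ μ u V z) = YB Φ μ u V (t.g z) := by
    intro U t hPB z hz
    obtain ⟨hP, hU, hm⟩ := hPB
    obtain ⟨A, U', hdet, hU'o, hzU', hU'U, hrel⟩ := hV.trans U t hP z hz (hU hz) (hm hz)
    obtain ⟨-, -, hg, ha, hβ, hga⟩ := hA.holo U t hP
    have hun : U' ∪ Bd c 2 = Bd c 2 := union_eq_self_of_subset_left (hU'U.trans hU)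
    refine hBNAT U' (Bd c 2) Φ μ u V t A hU'o hopen ?_ ?_ ?_ ?_ ?_ ?_ ?_ ?_ ?_ hdet ?_ hrel z hzU'
    · rwa [hun]
    · rwa [hun]
    · rwa [hun]
    · rwa [hun]
    · rwa [hun]
    · exact ⟨hg.mono hU'U, ha.mono hU'U, hβ.mono hU'U⟩
    · exact fun x hx => hm (hU'U hx)
    · intro x hx
      obtain ⟨h1, h2⟩ := hA.pot U t hP x (hU'U hx)
      exact ⟨(hga x (hU'U hx)).2, h1, h2⟩
    · intro x hx
      exact hμi U t ⟨hP, hU, hm⟩ x (hU'U hx)
    · intro x hx
      refine (hud U t ⟨hP, hU, hm⟩ x (hU'U hx) A ?_).2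
      filter_upwards [hU'o.mem_nhds hx] with x' hx' using hrel x' hx'
  -- the sign
  have hre : ∀ z ∈ Bd c 2, ((μ z : ℂ)⁻¹ * ∑ j, cd j (fun y => (μ y : ℂ) * YB Φ μ u V y j) z).re =
      Real.exp (-2 * u z) * ((tf (LM Φ z) (dsg (fun y => μ y * Real.exp (-2 * u y)) V z)
        (dsg (fun y => μ y * Real.exp (-2 * u y)) V z)).re + (tf (LM Φ z) (sg V z) (sg V z)).re) := by
    intro z hz
    rw [hY z hz, Complex.re_ofReal_mul, Complex.add_re]
  have hz0 := hINTB c R Rel P Φ C H hF μ hμs hμp hμi (YB Φ μ u V) hYs hYi (fun z hz => by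
    rw [hre z hz]
    have h1 := (hTENS (LM Φ z) (hPD z hz) (dsg (fun y => μ y * Real.exp (-2 * u y)) V z)).2.1
    have h2 := (hTENS (LM Φ z) (hPD z hz) (sg V z)).2.1
    exact mul_nonneg (Real.exp_pos _).le (add_nonneg h1 h2))
  have hsg : ∀ z ∈ Bd c 2, sg V z = 0 := by
    intro z hz
    have h0 := hz0 z hz
    rw [hre z hz] at h0
    have h1 := (hTENS (LM Φ z) (hPD z hz) (dsg (fun y => μ y * Real.exp (-2 * u y)) V z)).2.1
    have h2 := (hTENS (LM Φ z) (hPD z hz) (sg V z)).2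
    have h3 := (mul_eq_zero.1 h0).resolve_left (Real.exp_pos _).ne'
    exact h2.2 (by linarith [h2.1])
  -- generic independence
  have hreal := hRLT c R Rel P Φ C H hF lam hlam (p + 1) V hV hk
  obtain ⟨z, hz, hli⟩ := hGIND c R P Φ C hA (p + 1) V hV hreal ⟨0, hA.posN⟩
  obtain ⟨I, hI⟩ := exists_minor (fun k => V k z) hli
  have hzB : z ∈ Bd c 2 := mem_iUnion.2 ⟨_, hz⟩
  exact hI (congrFun (hsg z hzB) I)

end Pool.Agent.Helper52.SP
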